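import Pool.Agent.Lib.MP_f0fee1_an.Defs
import Pool.Agent.Lib.MP_f0fee1_an.Bidual

open Pool.Agent.Lib.MP_f0fee1_an

/-- There is a non-reflexive real Grothendieck space `X` without any copy of `c₀`; its bidual does
not contain the spaces `ℓ∞^N` uniformly and its dual has no complemented copy of `ℓ¹`. -/
theorem Pool.Agent.Results.MP_f0fee1_an.GrothendieckNoC0.result :
    ∃ (X : Type) (_ : NormedAddCommGroup X) (_ : NormedSpace ℝ X) (_ : CompleteSpace X),
      IsGrothendieck X ∧ ¬ IsReflexiveSpace X ∧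
      ¬ ContainsCopy X (ZeroAtInftyContinuousMap ℕ ℝ) ∧
      ¬ ContainsLinfUniformly (StrongDual ℝ (StrongDual ℝ X)) ∧
      ¬ ContainsComplementedCopy (StrongDual ℝ X) (lp (fun _ : ℕ => ℝ) 1) := by
  refine ⟨XX, inferInstance, inferInstance, inferInstance, XX_grothendieck, XX_not_reflexive,
    XX_no_c0, ?_, XX_no_l1⟩
  rintro ⟨C, hC⟩
  refine not_sqrt_bounded one_pos (D := 800 * |C|) fun N => ?_
  obtain ⟨T, hT⟩ := hC N
  rw [one_mul]
  refine XX_no_linf N T.toLinearMap |C| (abs_nonneg C) fun y => ⟨(hT y).1, (hT y).2.trans ?_⟩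
  exact mul_le_mul_of_nonneg_right (le_abs_self C) (norm_nonneg y)
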