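import Pool.Agent.Lib.GB86.Defs
import Pool.Agent.Lib.GB86.Code

open Pool.Agent.Lib.GB86

/-- If a real or complex Banach space `X` carries a block subsymmetric sequence of projections with
non-reflexive ranges, then the algebra of bounded operators on `X` is not a Grothendieck space. -/
theorem Pool.Agent.Results.MP_f0fee1_an.SymmetricSums.result (K X : Type) [RCLike K]
    [NormedAddCommGroup X] [NormedSpace K X] [CompleteSpace X] (P : ℕ → X →L[K] X)
    (hP : IsBlockSubsymmetric P)
    (hN : ∀ k, ¬ IsReflexiveSpace K (LinearMap.range (P k).toLinearMap)) :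
    ¬ IsGrothendieck K (X →L[K] X) :=
  not_grothendieck hP hN
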