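import Pool.Agent.Lib.GB86.Defs
import Pool.Agent.Lib.GB86.DefsW
import Pool.Agent.Lib.GB86.Weak

open Pool.Agent.Lib.GB86

/-- If the algebra of bounded operators on `X` is a Grothendieck space and `A`, `B` are not weakly
compact, then `T ↦ A T B` is not weakly compact as a map into the weak Calkin algebra. -/
theorem Pool.Agent.Results.MP_f0fee1_an.WeakCalkin.result (K X : Type) [RCLike K]
    [NormedAddCommGroup X] [NormedSpace K X] [CompleteSpace X]
    (hE : IsGrothendieck K (X →L[K] X)) (A B : X →L[K] X)
    (hA : A ∉ weaklyCompact K X) (hB : B ∉ weaklyCompact K X) :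
    ¬ IsCompactOperator fun T : X →L[K] X => toWeakSpace K ((X →L[K] X) ⧸ weaklyCompact K X)
      ((weaklyCompact K X).mkQ (A.comp (T.comp B))) :=
  not_weaklyCompact_mul hE A B hA hB
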